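import Pool.Agent.H.MP_7216ee_lc.Ent

namespace Pool.Agent.Results.MP_7216ee_lc.No

open scoped ENNReal
open Pool.Agent.H.MP_7216ee_lc

/-- Shannon entropy of a discrete law -/
noncomputable def ent {α : Type} (Q : PMF α) : ℝ≥0∞ :=
  ∑' a, ENNReal.ofReal (Real.negMulLog (Q a).toReal)

def Poly {n : ℕ} (f : Finset (Fin n) → ℝ) : Prop :=
  f ∅ = 0 ∧ (∀ S, 0 ≤ f S) ∧ (∀ S T, S ⊆ T → f S ≤ f T) ∧ ∀ S T, f (S ∩ T) + f (S ∪ T) ≤ f S + f T

def Entropic {n : ℕ} (f : Finset (Fin n) → ℝ) : Prop :=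
  ∃ P : PMF (Fin n → ℕ), (∀ i, ent (P.map fun x => x i) ≠ ⊤) ∧
    ∀ S, f S = (ent (P.map fun x (i : S) => x i)).toReal / Real.log 2

def Complete {n : ℕ} (M : Finset (Finset (Fin n))) : Prop :=
  ∀ c : Finset (Fin n) → ℝ, (∀ f, Entropic f → 0 ≤ ∑ S ∈ M, c S * f S) →
    ∀ f, Poly f → 0 ≤ ∑ S ∈ M, c S * f S

def K (n : ℕ) : Finset (Finset (Fin n)) := {S | S.card ≤ 2}

section
variable {Ω : Type} (P : PMF Ω) (V : Ω → Fin 5 → ℕ)

noncomputable def h (S : Finset (Fin 5)) : ℝ≥0∞ := E P fun ω (i : S) => V ω i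

theorem h_sub (S T U W : Finset (Fin 5)) (h1 : U ⊆ S ∪ T) (h2 : W ⊆ S ∩ T) :
    h P V U + h P V W ≤ h P V S + h P V T := by
  refine le_trans (add_le_add (E_le P ?_) le_rfl) (E_sub P _ _ _ ?_ ?_)
  · intro ω ω' _ _ e
    funext i
    rcases Finset.mem_union.1 (h1 i.2) with c | c
    exacts [congrFun (congrArg Prod.fst e) ⟨i, c⟩, congrFun (congrArg Prod.snd e) ⟨i, c⟩]
  · exact fun ω ω' e => funext fun i => congrFun e ⟨i, (Finset.mem_inter.1 (h2 i.2)).1⟩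
  · exact fun ω ω' e => funext fun i => congrFun e ⟨i, (Finset.mem_inter.1 (h2 i.2)).2⟩

theorem h_top (hV : ∀ i, E P (fun ω => V ω i) ≠ ⊤) (S : Finset (Fin 5)) : h P V S ≠ ⊤ := by
  have h1 : ∀ i, h P V {i} ≠ ⊤ := fun i =>
    ne_top_of_le_ne_top (hV i) (E_le P fun ω ω' _ _ e => funext fun j => by
      rw [Finset.mem_singleton.1 j.2, e])
  induction S using Finset.induction_on with
  | empty => exact ne_top_of_le_ne_top (hV 0) (E_le P fun _ _ _ _ _ => funext fun j =>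
      absurd j.2 (Finset.notMem_empty _))
  | insert i S _ ih =>
    exact ne_top_of_le_ne_top (ENNReal.add_ne_top.2 ⟨h1 i, ih⟩)
      (le_self_add.trans (h_sub P V {i} S (insert i S) ∅ (by simp) (by simp)))

theorem r_sub (hV : ∀ i, E P (fun ω => V ω i) ≠ ⊤) (S T U W : Finset (Fin 5))
    (h1 : U ⊆ S ∪ T ∧ W ⊆ S ∩ T) :
    (h P V U).toReal + (h P V W).toReal ≤ (h P V S).toReal + (h P V T).toReal := by
  have := h_top P V hV
  rw [← ENNReal.toReal_add (this _) (this _), ← ENNReal.toReal_add (this _) (this _)]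
  exact ENNReal.toReal_mono (ENNReal.add_ne_top.2 ⟨this _, this _⟩) (h_sub P V S T U W h1.1 h1.2)

end

def W (x : Fin 5 → ℕ) : ℕ × ℕ := (x 3, x 4)

def V (q : (Fin 5 → ℕ) × (Fin 5 → ℕ)) : Fin 5 → ℕ := ![q.1 0, q.2 0, q.2 2, q.1 3, q.1 4]

theorem tr1 (P : PMF (Fin 5 → ℕ)) (S : Finset (Fin 5)) (hS : 1 ∉ S ∧ 2 ∉ S) :
    h (copy P W) V S = h P id S := by
  rw [h, h, ← E_fst P W]
  congr 1
  funext q ⟨i, hi⟩
  fin_cases i
  exacts [rfl, absurd hi hS.1, absurd hi hS.2, rfl, rfl]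

theorem V_snd {P : PMF (Fin 5 → ℕ)} {q} (hq : copy P W q ≠ 0) (i : Fin 5) (hi : i ≠ 0) :
    V q i = q.2 (Equiv.swap 0 1 i) := by
  have := (copy_supp hq).2.2
  simp only [W, Prod.mk.injEq] at this
  fin_cases i
  exacts [absurd rfl hi, rfl, rfl, this.1, this.2]

theorem tr2 (P : PMF (Fin 5 → ℕ)) (S T : Finset (Fin 5))
    (hS : 0 ∉ S ∧ ∀ i, i ∈ S ↔ Equiv.swap 0 1 i ∈ T) : h (copy P W) V S = h P id T := by
  have h0 : ∀ i ∈ S, i ≠ 0 := fun i hi e => hS.1 (e ▸ hi)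
  rw [h, h, ← E_snd P W]
  refine le_antisymm (E_le _ fun q q' c c' e => funext fun i => ?_)
    (E_le _ fun q q' c c' e => funext fun i => ?_)
  · rw [V_snd c _ (h0 _ i.2), V_snd c' _ (h0 _ i.2)]
    exact congrFun e ⟨_, (hS.2 _).1 i.2⟩
  · have hi : Equiv.swap 0 1 i.1 ∈ S := (hS.2 _).2 (by simp)
    have := congrFun e ⟨_, hi⟩
    simp only [V_snd c _ (h0 _ hi), V_snd c' _ (h0 _ hi), Equiv.swap_apply_self] at this
    exact this

theorem ci (P : PMF (Fin 5 → ℕ)) :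
    h P id {0, 3, 4} + h P id {0, 2, 3, 4} ≤ h (copy P W) V {0, 1, 2, 3, 4} + h P id {3, 4} := by
  refine (E_copy P W _ _ fun x y e => ?_).trans (add_le_add (E_le _ fun q q' c c' e => ?_)
    (E_le _ fun x y _ _ e => ?_))
  · exact Prod.ext (congrFun e ⟨3, by simp⟩) (congrFun e ⟨4, by simp⟩)
  · have e0 := congrFun e ⟨0, by simp⟩
    have e1 := congrFun e ⟨1, by simp⟩
    have e2 := congrFun e ⟨2, by simp⟩
    have e3 := congrFun e ⟨3, by simp⟩
    have e4 := congrFun e ⟨4, by simp⟩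
    have e5 := (V_snd c 3 (by decide)).symm.trans (e3.trans (V_snd c' 3 (by decide)))
    have e6 := (V_snd c 4 (by decide)).symm.trans (e4.trans (V_snd c' 4 (by decide)))
    refine Prod.ext (funext fun ⟨i, hi⟩ => ?_) (funext fun ⟨i, hi⟩ => ?_) <;> fin_cases i
    exacts [e0, absurd hi (by decide), absurd hi (by decide), e3, e4, e1, absurd hi (by decide),
      e2, e5, e6]
  · exact Prod.ext (congrFun e ⟨3, by simp⟩) (congrFun e ⟨4, by simp⟩)

theorem zy (P : PMF (Fin 5 → ℕ)) (hP : ∀ i, E P (fun x => x i) ≠ ⊤) (f : Finset (Fin 5) → ℝ)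
    (hf : ∀ S, f S = (h P id S).toReal) :
    0 ≤ -f {0} - 5 * f {1} - 2 * f {3} - 2 * f {4} - 4 * f {0, 1} - f {0, 2} + 3 * f {0, 3} +
      3 * f {0, 4} - f {1, 2} + 5 * f {1, 3} + 5 * f {1, 4} + f {2, 3} + f {2, 4} - 2 * f {3, 4} := by
  have hQ : ∀ i, E (copy P W) (fun q => V q i) ≠ ⊤ := by
    intro i
    fin_cases i
    exacts [(E_fst P W fun x => x 0).trans_ne (hP 0), (E_snd P W fun x => x 0).trans_ne (hP 0),
      (E_snd P W fun x => x 2).trans_ne (hP 2), (E_fst P W fun x => x 3).trans_ne (hP 3),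
      (E_fst P W fun x => x 4).trans_ne (hP 4)]
  have a := r_sub P id hP
  have b := r_sub _ V hQ
  have t := h_top P id hP
  have c := ENNReal.toReal_mono (ENNReal.add_ne_top.2 ⟨h_top _ V hQ _, t _⟩) (ci P)
  rw [ENNReal.toReal_add (t _) (t _), ENNReal.toReal_add (h_top _ V hQ _) (t _)] at c
  have a1 := a {1, 3} {1, 4} {1, 3, 4} {1} (by decide)
  have a2 := a {0, 3, 4} {1, 3, 4} {0, 1} {3, 4} (by decide)
  have a3 := a {2, 3, 4} {1, 3, 4} {1, 2} {3, 4} (by decide)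
  have b1 := b {0, 3} {2, 3} {0, 2, 3} {3} (by decide)
  have b2 := b {0, 4} {2, 4} {0, 2, 4} {4} (by decide)
  have b3 := b {0, 2, 3} {0, 2, 4} {0, 2, 3, 4} {0, 2} (by decide)
  have b4 := b {0, 3} {1, 3} {0, 1, 3} {3} (by decide)
  have b5 := b {0, 4} {1, 4} {0, 1, 4} {4} (by decide)
  have b6 := b {0, 1, 3} {0, 1, 4} {0, 1, 3, 4} {0, 1} (by decide)
  have b7 := b {0, 2, 3, 4} {1, 2, 3, 4} {0, 1, 2, 3, 4} {2, 3, 4} (by decide)
  have b8 := b {0, 1, 3, 4} {1, 2, 3, 4} {0, 1, 2, 3, 4} {1, 3, 4} (by decide)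
  have b9 := b {0, 1} {0, 2} {0, 1, 2} {0} (by decide)
  have b10 := b {0, 1, 2} {1, 2, 3, 4} {0, 1, 2, 3, 4} {1, 2} (by decide)
  have c1 := congrArg ENNReal.toReal (tr1 P {0, 3} (by decide))
  have c2 := congrArg ENNReal.toReal (tr1 P {3} (by decide))
  have c3 := congrArg ENNReal.toReal (tr1 P {0, 4} (by decide))
  have c4 := congrArg ENNReal.toReal (tr1 P {4} (by decide))
  have c5 := congrArg ENNReal.toReal (tr1 P {0} (by decide))
  have c6 := congrArg ENNReal.toReal (tr2 P {2, 3} {2, 3} (by decide))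
  have c7 := congrArg ENNReal.toReal (tr2 P {2, 4} {2, 4} (by decide))
  have c8 := congrArg ENNReal.toReal (tr2 P {1, 3} {0, 3} (by decide))
  have c9 := congrArg ENNReal.toReal (tr2 P {1, 4} {0, 4} (by decide))
  have c10 := congrArg ENNReal.toReal (tr2 P {1, 2, 3, 4} {0, 2, 3, 4} (by decide))
  have c11 := congrArg ENNReal.toReal (tr2 P {2, 3, 4} {2, 3, 4} (by decide))
  have c12 := congrArg ENNReal.toReal (tr2 P {1, 3, 4} {0, 3, 4} (by decide))
  have c13 := congrArg ENNReal.toReal (tr2 P {1, 2} {0, 2} (by decide))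
  simp only [hf]
  linear_combination a2 + a2 + a2 + a2 + a3 + 5 * a1 + b1 + b2 + b3 + b4 + b5 + b6 + b7 + b8 + b9 +
    b10 + 3 * c + 2 * c1 - 2 * c2 + 2 * c3 - 2 * c4 - c5 + c6 + c7 + c8 + c9 + 3 * c10 - c11 - c12 -
    c13

def co (S : Finset (Fin 5)) : ℤ :=
  if S = {0} then -1 else if S = {1} then -5 else if S = {3} then -2 else if S = {4} then -2
  else if S = {0, 1} then -4 else if S = {0, 2} then -1 else if S = {0, 3} then 3
  else if S = {0, 4} then 3 else if S = {1, 2} then -1 else if S = {1, 3} then 5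
  else if S = {1, 4} then 5 else if S = {2, 3} then 1 else if S = {2, 4} then 1
  else if S = {3, 4} then -2 else 0

def g0 (T : Finset (Fin 5)) : ℕ := if T = ∅ then 0 else if T = {0, 2} then 4 else min 4 (T.card + 1)

def g (S : Finset (Fin 5)) : ℕ := g0 (if 1 ∈ S then S.erase 1 ∪ {3, 4} else S)

theorem result : ¬ Complete (K 5) := by
  intro hc
  have hK : K 5 = {∅, {0}, {1}, {2}, {3}, {4}, {0, 1}, {0, 2}, {0, 3}, {0, 4}, {1, 2}, {1, 3},
    {1, 4}, {2, 3}, {2, 4}, {3, 4}} := by decide +kernel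
  have := hc (fun S => co S) ?_ (fun S => g S) ⟨by simp [g, g0], fun _ => Nat.cast_nonneg _, ?_, ?_⟩
  · revert this
    norm_cast
  · rintro f ⟨P, h1, h2⟩
    have l := Real.log_pos one_lt_two
    have := zy P (fun i => ent_eq P _ ▸ h1 i) (fun S => f S * Real.log 2) fun S => by
      rw [h2, div_mul_cancel₀ _ l.ne', ent, ent_eq]
      rfl
    refine nonneg_of_mul_nonneg_left (le_of_le_of_eq this ?_) l
    rw [hK]
    repeat rw [Finset.sum_insert (by decide)]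
    rw [Finset.sum_singleton]
    simp +decide only [co, if_true, if_false]
    push_cast
    ring
  · beta_reduce
    norm_cast
  · beta_reduce
    norm_cast

end Pool.Agent.Results.MP_7216ee_lc.No
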